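import Pool.Agent.TH900.VPS.Count

/-! Arithmetic of the least common multiples and of the dense primes. -/

set_option autoImplicit false

namespace Pool.Agent.TH900.VPC

open Finset
open Pool.Agent.W89.VP
open Pool.Agent.W505.PV.VF (wf wf_mul_vf vf_pos vf_eq)
open Pool.Agent.TH900.VPS

set_option maxHeartbeats 400000

/-- product of the primes that divide `c` too often -/
def DD (a s c : ℕ) : ℕ := ∏ q ∈ c.primeFactors.filter (fun q => s < a * c.factorization q), q

lemma DD_pos (a s c : ℕ) : 1 ≤ DD a s c := by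
  unfold DD
  exact prod_pos' _ _ (fun q hq => (Nat.prime_of_mem_primeFactors (mem_filter.1 hq).1).one_le)

lemma DD_le {a s c N : ℕ} (hs : 1 ≤ s) (hc : 1 ≤ c) (hcN : c ≤ N ^ s) : DD a s c ≤ N ^ a := by
  have h1 : DD a s c ^ s ≤ c ^ a := by
    unfold DD
    rw [← Finset.prod_pow]
    calc ∏ q ∈ c.primeFactors.filter (fun q => s < a * c.factorization q), q ^ s
        ≤ ∏ q ∈ c.primeFactors.filter (fun q => s < a * c.factorization q),
            (q ^ c.factorization q) ^ a := by
          apply Finset.prod_le_prod'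
          intro q hq
          rw [mem_filter] at hq
          rw [← pow_mul]
          apply Nat.pow_le_pow_right (Nat.prime_of_mem_primeFactors hq.1).pos
          have := hq.2
          rw [mul_comm]
          omega
      _ ≤ ∏ q ∈ c.primeFactors, (q ^ c.factorization q) ^ a :=
          Finset.prod_le_prod_of_subset_of_one_le' (filter_subset _ _)
            (fun q hq _ => Nat.one_le_pow _ _ (Nat.pow_pos (Nat.prime_of_mem_primeFactors hq).pos))
      _ = c ^ a := by
          rw [Finset.prod_pow]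
          congr 1
          exact Nat.prod_factorization_pow_eq_self (by omega)
  have h2 : DD a s c ^ s ≤ (N ^ a) ^ s := by
    refine h1.trans ((Nat.pow_le_pow_left hcN a).trans (le_of_eq ?_))
    rw [← pow_mul, ← pow_mul, mul_comm]
  exact (Nat.pow_le_pow_iff_left (by omega)).1 h2

lemma not_dvd_DD {a s c q : ℕ} (hq : q ∈ c.primeFactors) (h : ¬ q ∣ DD a s c) :
    a * c.factorization q ≤ s := by
  by_contra hcon
  push Not at hcon
  apply h
  unfold DD
  exact Finset.dvd_prod_of_mem (fun q => q) (mem_filter.2 ⟨hq, hcon⟩)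

/-- least common multiple of the smooth parts -/
def LC {b : ℕ} (H : ℕ) (z : Fin b → ℕ) (u : ℕ) : ℕ := univ.lcm (fun r => wf H (ds (z r) u))

lemma LC_pos {b : ℕ} (H : ℕ) (z : Fin b → ℕ) (u : ℕ) : 1 ≤ LC H z u := by
  unfold LC
  apply Nat.one_le_iff_ne_zero.2
  rw [Finset.lcm_ne_zero_iff]
  intro r _
  have := wf_pos H (ds (z r) u)
  omega

lemma pow_dvd_wf {H u q : ℕ} (hq : q.Prime) (hH : q ∣ H) (hu : 1 ≤ u) :
    q ^ u.factorization q ∣ wf H u := by
  by_cases hd : q ∣ u
  · unfold wf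
    exact Finset.dvd_prod_of_mem (fun p => p ^ u.factorization p)
      (mem_filter.2 ⟨Nat.mem_primeFactors.2 ⟨hq, hd, by omega⟩, hH⟩)
  · rw [Nat.factorization_eq_zero_of_not_dvd hd, pow_zero]
    exact one_dvd _

lemma prod_dvd' {ι : Type*} (K : Finset ι) (f : ι → ℕ) (m : ℕ)
    (hc : ∀ i ∈ K, ∀ j ∈ K, i ≠ j → Nat.Coprime (f i) (f j)) (h : ∀ i ∈ K, f i ∣ m) :
    ∏ i ∈ K, f i ∣ m := by
  classical
  induction K using Finset.induction_on with
  | empty => simp
  | insert a K ha ih =>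
    rw [Finset.prod_insert ha]
    apply Nat.Coprime.mul_dvd_of_dvd_of_dvd
    · apply Nat.Coprime.prod_right
      intro i hi
      exact hc a (mem_insert_self _ _) i (mem_insert_of_mem hi) (by rintro rfl; exact ha hi)
    · exact h a (mem_insert_self _ _)
    · exact ih (fun i hi j hj => hc i (mem_insert_of_mem hi) j (mem_insert_of_mem hj))
        (fun i hi => h i (mem_insert_of_mem hi))

lemma prime_pow_coprime {p q i j : ℕ} (hp : p.Prime) (hq : q.Prime) (h : p ≠ q) :
    Nat.Coprime (p ^ i) (q ^ j) := Nat.Coprime.pow _ _ ((Nat.coprime_primes hp hq).2 h)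

lemma lcm_low {b : ℕ} (H : ℕ) (z : Fin b → ℕ) (u : ℕ) (hz : ∀ r, 1 ≤ ds (z r) u) (K : Finset ℕ)
    (hK : ∀ q ∈ K, q.Prime ∧ q ∣ H) :
    ∏ q ∈ K, q ^ (univ.sup fun r => (ds (z r) u).factorization q) ∣ LC H z u := by
  apply prod_dvd'
  · intro p hp q hq hpq
    exact prime_pow_coprime (hK p hp).1 (hK q hq).1 hpq
  · intro q hq
    rcases isEmpty_or_nonempty (Fin b) with hb | hb
    · rw [Finset.univ_eq_empty, Finset.sup_empty]
      simp
    · obtain ⟨r, -, hr⟩ := Finset.exists_mem_eq_sup univ Finset.univ_nonempty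
        (fun r => (ds (z r) u).factorization q)
      rw [hr]
      exact (pow_dvd_wf (hK q hq).1 (hK q hq).2 (hz r)).trans
        (Finset.dvd_lcm (f := fun r => wf H (ds (z r) u)) (Finset.mem_univ r))

lemma log_prod_pow (K : Finset ℕ) (hK : ∀ q ∈ K, q.Prime) (M : ℕ → ℕ) :
    Real.log ((∏ q ∈ K, q ^ M q : ℕ) : ℝ) = ∑ q ∈ K, (M q : ℝ) * Real.log q := by
  rw [log_prod_nat]
  · apply Finset.sum_congr rfl
    intro q _
    rw [Nat.cast_pow, Real.log_pow]
  · intro q hq
    exact Nat.pow_pos (hK q hq).pos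

lemma sup_mass_lt {b N : ℕ} (H : ℕ) (z : Fin b → ℕ) (u : ℕ) (hz : ∀ r, 1 ≤ ds (z r) u)
    (K : Finset ℕ) (hK : ∀ q ∈ K, q.Prime ∧ q ∣ H) (h : LC H z u < N) :
    ∑ q ∈ K, ((univ.sup fun r => (ds (z r) u).factorization q : ℕ) : ℝ) * Real.log q <
      Real.log N := by
  rw [← log_prod_pow K (fun q hq => (hK q hq).1)
    (fun q => univ.sup fun r => (ds (z r) u).factorization q)]
  have h1 := Nat.le_of_dvd (LC_pos H z u) (lcm_low H z u hz K hK)
  have h2 : 1 ≤ ∏ q ∈ K, q ^ (univ.sup fun r => (ds (z r) u).factorization q) :=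
    prod_pos' _ _ (fun q hq => Nat.pow_pos (hK q hq).1.pos)
  apply Real.log_lt_log
  · have : (1 : ℝ) ≤ ((∏ q ∈ K, q ^ (univ.sup fun r => (ds (z r) u).factorization q) : ℕ) : ℝ) := by
      exact_mod_cast h2
    linarith
  · exact_mod_cast h1.trans_lt h

lemma col_mass_le {N u : ℕ} (hu : 1 ≤ u) (huN : u ≤ N) (K : Finset ℕ) (hK : ∀ q ∈ K, q.Prime) :
    ∑ q ∈ K, (u.factorization q : ℝ) * Real.log q ≤ Real.log N := by
  rw [← log_prod_pow K hK (fun q => u.factorization q)]
  have h1 : ∏ q ∈ K, q ^ u.factorization q ∣ u := by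
    apply prod_dvd'
    · intro p hp q hq hpq
      exact prime_pow_coprime (hK p hp) (hK q hq) hpq
    · intro q _
      exact Nat.ordProj_dvd u q
  have h2 : 1 ≤ ∏ q ∈ K, q ^ u.factorization q := prod_pos' _ _ (fun q hq => Nat.pow_pos (hK q hq).pos)
  apply Real.log_le_log
  · have : (1 : ℝ) ≤ ((∏ q ∈ K, q ^ u.factorization q : ℕ) : ℝ) := by exact_mod_cast h2
    linarith
  · exact_mod_cast (Nat.le_of_dvd hu h1).trans huN

lemma log_vf_eq {c u : ℕ} (H : ℕ) (hc : c ≠ 0) (hu : u ∣ c) :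
    Real.log (vf H u : ℝ) = ∑ q ∈ c.primeFactors,
      if ¬ q ∣ H then (u.factorization q : ℝ) * Real.log q else 0 := by
  rw [vf_eq H u _ (Nat.primeFactors_mono hu hc), log_prod_pow _
    (fun q hq => Nat.prime_of_mem_primeFactors (mem_filter.1 hq).1) (fun q => u.factorization q),
    Finset.sum_filter]

/-- at most one candidate -/
lemma cand_card {b N : ℕ} (H : ℕ) (z : Fin b → ℕ) (W : Finset ℕ)
    (hW : ∀ r, ∀ u ∈ Icc 1 N, u ≠ z r → wf H (ds (z r) u) ∈ W) :
    ((Icc 1 N).filter (fun u => (∀ r, u ≠ z r) ∧ N ≤ LC H z u)).card ≤ W.card ^ b := by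
  classical
  have h : ((Icc 1 N).filter (fun u => (∀ r, u ≠ z r) ∧ N ≤ LC H z u)).card ≤
      (Fintype.piFinset fun _ : Fin b => W).card := by
    apply Finset.card_le_card_of_injOn (fun u r => wf H (ds (z r) u))
    · intro u hu
      have hu' := Finset.mem_filter.1 (Finset.mem_coe.1 hu)
      show (fun r => wf H (ds (z r) u)) ∈ (Fintype.piFinset fun _ : Fin b => W)
      rw [Fintype.mem_piFinset]
      intro r
      exact hW r u hu'.1 (hu'.2.1 r)
    · intro u hu u' hu' he
      have hu1 := Finset.mem_filter.1 (Finset.mem_coe.1 hu)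
      have hu2 := Finset.mem_filter.1 (Finset.mem_coe.1 hu')
      have he' : ∀ r, wf H (ds (z r) u) = wf H (ds (z r) u') := fun r => congrFun he r
      have h1 : LC H z u ∣ ds u u' := by
        unfold LC
        rw [Finset.lcm_dvd_iff]
        intro r _
        have a1 : wf H (ds (z r) u) ∣ ds (z r) u := wf_dvd _ _ (ds_pos' (hu1.2.1 r))
        have a2 : wf H (ds (z r) u) ∣ ds (z r) u' := by
          rw [he' r]
          exact wf_dvd _ _ (ds_pos' (hu2.2.1 r))
        unfold ds at a1 a2 ⊢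
        have b1 := Int.natCast_dvd.2 a1
        have b2 := Int.natCast_dvd.2 a2
        have b3 := dvd_sub b2 b1
        have b4 : ((z r : ℤ) - u') - ((z r : ℤ) - u) = (u : ℤ) - u' := by ring
        rw [b4] at b3
        exact Int.natCast_dvd.1 b3
      by_contra hne
      have h2 : 1 ≤ ds u u' := ds_pos' (Ne.symm hne)
      have h3 := Nat.le_of_dvd h2 h1
      have h4 := hu1.2.2
      have h5 := Finset.mem_Icc.1 hu1.1
      have h6 := Finset.mem_Icc.1 hu2.1
      unfold ds at h3
      omega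
  refine h.trans (le_of_eq ?_)
  rw [Fintype.card_piFinset]
  simp

end Pool.Agent.TH900.VPC
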