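import Pool.Agent.TH900.VPC.Cnt
import Pool.Agent.TH900.VPS.Final

/-! Assembly: non-diagonal solutions for `s = k + 1`. -/

set_option autoImplicit false

namespace Pool.Agent.TH900.VPC

open Finset Polynomial
open Pool.Agent.W89.VP
open Pool.Agent.W505.PV.VF (wf wf_mul_vf vf_pos vf_eq)
open Pool.Agent.W89.VP.FinP (card_le_of_cover divs)
open Pool.Agent.W154.PV (mem_VD card_V2 uniq1 PP PP_eval PP_eval_zero)
open Pool.Agent.TH900.VPS

set_option maxHeartbeats 400000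

lemma row_const (hN : NEWTStm) (k : ℕ) (x y : Fin (k + 1) → ℕ)
    (h : ∀ j : Fin k, ∑ i, x i ^ (j.val + 1) = ∑ i, y i ^ (j.val + 1)) :
    ∃ c : ℕ, ∀ i, ∏ j, ds (y j) (x i) = c := by
  have d1 := hN (k + 1) k x y h
  have e1 : k + 1 - k = 1 := by omega
  rw [e1] at d1
  change (PP x - PP y).degree < ((1 : ℕ) : WithBot ℕ) at d1
  refine ⟨((PP x - PP y).coeff 0).natAbs, fun i => ?_⟩
  have hRC : PP x - PP y = C ((PP x - PP y).coeff 0) := by
    rw [Polynomial.degree_lt_iff_coeff_zero] at d1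
    ext m
    rcases Nat.eq_zero_or_pos m with h0 | h0
    · rw [h0, coeff_C_zero]
    · rw [d1 m h0, coeff_C_of_ne_zero (by omega)]
  have h1 : (PP x - PP y).eval (x i : ℤ) = - ∏ j, ((x i : ℤ) - y j) := by
    rw [eval_sub, PP_eval_zero, PP_eval]; ring
  rw [hRC, eval_C] at h1
  rw [h1, Int.natAbs_neg]
  have h2 := map_prod Int.natAbsHom (fun j => ((x i : ℤ) - y j)) univ
  have h3 : (∏ j, ((x i : ℤ) - y j)).natAbs = ∏ j, ((x i : ℤ) - y j).natAbs := h2
  rw [h3]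
  apply Finset.prod_congr rfl
  intro j _
  unfold ds
  omega

lemma str_QC (hN : NEWTStm) {k n a b N : ℕ} (hn : 1 ≤ n) (ha : 1 ≤ a) (hb : 1 ≤ b)
    (p : (Fin (k + 1) → ℕ) × (Fin (k + 1) → ℕ)) (hp : p ∈ VD (k + 1) k N)
    (e : Fin n → Fin (k + 1)) :
    QC n (k + 1) a b N (1 + ((k + 1 : ℕ) : ℝ) / n * (16 / (5 * b) + 1 / a))
      (fun j => p.2 (e j)) p.1 := by
  classical
  rw [mem_VD] at hp
  obtain ⟨⟨hx, hy⟩, heq, hxy⟩ := hp
  have hN2 : 2 ≤ N := by
    by_contra hcon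
    have h1 := hx 0
    have h2 := hy 0
    have h3 := hxy 0 0
    omega
  have hNr : (1 : ℝ) ≤ N := by exact_mod_cast (by omega : 1 ≤ N)
  have hNp : (0 : ℝ) < N := by linarith
  obtain ⟨c, hrow⟩ := row_const hN k p.1 p.2 heq
  have hds1 : ∀ i j, 1 ≤ ds (p.2 j) (p.1 i) := fun i j => ds_pos' (hxy i j)
  have hdsN : ∀ i j, ds (p.2 j) (p.1 i) ≤ N := fun i j => ds_le' (hy j) (hx i)
  have hc1 : 1 ≤ c := by
    rw [← hrow 0]
    exact prod_pos' _ _ (fun j _ => hds1 0 j)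
  have hcN : c ≤ N ^ (k + 1) := by
    rw [← hrow 0]
    calc ∏ j, ds (p.2 j) (p.1 0) ≤ ∏ _j : Fin (k + 1), N := Finset.prod_le_prod' (fun j _ => hdsN 0 j)
      _ = N ^ (k + 1) := by simp
  have hdvd : ∀ i j, ds (p.2 (e j)) (p.1 i) ∣ c := by
    intro i j
    rw [← hrow i]
    exact Finset.dvd_prod_of_mem (fun j => ds (p.2 j) (p.1 i)) (Finset.mem_univ (e j))
  obtain ⟨j0, τ, hle⟩ := exists_choice (s := k + 1) (a := a) (b := b) hN2 (by omega) hn ha hb
    p.1 p.2 (fun j => p.2 (e j)) hx hy (fun j => hy (e j)) hxy (fun i j => hxy i (e j))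
    (by omega) hrow hdvd
  set D := DD a (k + 1) c with hD
  set T := univ.filter (fun t => LC (HH D (fun j => p.2 (e j)) p.1 t) (fun r => p.2 (τ r)) (p.1 t) < N)
    with hT
  set Q : ℕ := ∏ t ∈ T, vf (HH D (fun j => p.2 (e j)) p.1 t) (ds (p.2 (e j0)) (p.1 t)) with hQ
  have hQ1 : 1 ≤ Q := prod_pos' _ _ (fun t _ => vf_pos _ _)
  refine ⟨fun r => p.2 (τ r), D, j0, T, Q, fun r => hy _, DD_pos _ _ _,
    DD_le (by omega) hc1 hcN, hQ1, ?_, ?_, fun i j => hxy i (e j), fun i r => hxy i (τ r), ?_, ?_⟩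
  · have h1 : (0 : ℝ) < Q := by positivity
    rw [← Real.exp_log h1, Real.rpow_def_of_pos hNp]
    apply Real.exp_le_exp.2
    rw [hQ, log_prod_nat _ _ (fun t _ => vf_pos _ _)]
    refine hle.trans (le_of_eq ?_)
    ring
  · rw [hQ]
    calc ∏ t ∈ T, vf (HH D (fun j => p.2 (e j)) p.1 t) (ds (p.2 (e j0)) (p.1 t))
        ≤ ∏ _t ∈ T, N := Finset.prod_le_prod' (fun t _ =>
          (Nat.le_of_dvd (hds1 t _) (vf_dvd _ _ (hds1 t _))).trans (hdsN t _))
      _ = N ^ T.card := by simp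
      _ ≤ N ^ (k + 1) := Nat.pow_le_pow_right (by omega) (by
          simpa using Finset.card_le_univ T)
  · intro t ht
    by_contra hcon
    push Not at hcon
    exact ht (Finset.mem_filter.2 ⟨Finset.mem_univ _, hcon⟩)
  · intro t ht
    exact Finset.dvd_prod_of_mem
      (fun t => vf (HH D (fun j => p.2 (e j)) p.1 t) (ds (p.2 (e j0)) (p.1 t))) ht

open scoped Classical in
lemma card_fst (hN : NEWTStm) {k n N : ℕ} (hn : 1 ≤ n) (e : Fin n → Fin (k + 1))
    (z : Fin n → ℕ) (hz : Function.Injective z) :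
    ((VD (k + 1) k N).filter (fun p => ∀ j, p.2 (e j) = z j)).card ≤
      (k + 1).factorial *
        (((VD (k + 1) k N).filter (fun p => ∀ j, p.2 (e j) = z j)).image Prod.fst).card := by
  set S := (VD (k + 1) k N).filter (fun p => ∀ j, p.2 (e j) = z j) with hS
  have hfib : ∀ b ∈ S.image Prod.fst, (S.filter fun p => p.1 = b).card ≤ (k + 1).factorial := by
    intro b hb
    rw [Finset.mem_image] at hb
    obtain ⟨p0, hp0, rfl⟩ := hb
    have hsub : (S.filter fun p => p.1 = p0.1) ⊆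
        (univ : Finset (Equiv.Perm (Fin (k + 1)))).image
          (fun σ : Equiv.Perm (Fin (k + 1)) => (p0.1, fun i => p0.2 (σ i))) := by
      intro p hp
      rw [Finset.mem_filter] at hp
      obtain ⟨hp, hpe⟩ := hp
      rw [hS, Finset.mem_filter, mem_VD] at hp hp0
      obtain ⟨σ, hσ⟩ := uniq1 hN hn p0.1 p.2 p0.2 z e hz (by rw [← hpe]; exact hp.1.2.1) hp0.1.2.1
        hp.2 hp0.2
      rw [Finset.mem_image]
      refine ⟨σ, Finset.mem_univ _, ?_⟩
      apply Prod.ext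
      · exact hpe.symm
      · exact hσ.symm
    refine (Finset.card_le_card hsub).trans (Finset.card_image_le.trans ?_)
    rw [Finset.card_univ, Fintype.card_perm, Fintype.card_fin]
  exact Finset.card_le_mul_card_image S _ hfib

theorem vd_cube (k n a b : ℕ) (hn : 1 ≤ n) (ha : 1 ≤ a) (hb : 1 ≤ b) (ε : ℝ) (hε : 0 < ε) :
    ∃ C : ℝ, 0 < C ∧ ∀ N : ℕ, 1 ≤ N → ((VD (k + 1) k N).card : ℝ) ≤
      C * (N : ℝ) ^ ((n : ℝ) + a + b + 1 + ((k : ℝ) + 1) / n * (16 / (5 * b) + 1 / a) + ε) := by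
  classical
  have hN : NEWTStm := Pool.Agent.W346.PV.Newt.main
  have hDIV := Pool.Agent.W505.PV.VF.mainDIV
  have hVINF := Pool.Agent.W505.PV.Vinf.main hDIV
  set θ : ℝ := 1 + ((k + 1 : ℕ) : ℝ) / n * (16 / (5 * b) + 1 / a) with hθ
  obtain ⟨C1, hC1, hmain⟩ := count_QC hDIV hVINF n (k + 1) a b θ (by omega) ε hε
  refine ⟨((k + 1 : ℕ) : ℝ) ^ n * ((k + 1).factorial * C1) + k.factorial * (n : ℝ) ^ (k + 1) + 1,
    by positivity, ?_⟩
  intro N hN1
  have hNr : (1 : ℝ) ≤ N := by exact_mod_cast hN1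
  have hN0 : (0 : ℝ) < N := by linarith
  have hn0 : (0 : ℝ) < n := by exact_mod_cast hn
  set B : ℝ := C1 * (N : ℝ) ^ ((b : ℝ) + a + θ + ε) with hB
  have hB0 : 0 ≤ B := by positivity
  let I : Finset ((Fin n → Fin (k + 1)) × (Fin n → ℕ)) :=
    ((univ : Finset (Fin n → Fin (k + 1))) ×ˢ
      (Fintype.piFinset fun _ : Fin n => Finset.Icc 1 N)).filter (fun q => Function.Injective q.2)
  have hI : (I.card : ℝ) ≤ ((k + 1 : ℕ) : ℝ) ^ n * (N : ℝ) ^ n := by
    have h1 : I.card ≤ (k + 1) ^ n * N ^ n := by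
      refine (Finset.card_filter_le _ _).trans ?_
      rw [Finset.card_product, Finset.card_univ, Fintype.card_piFinset]
      simp
    exact_mod_cast h1
  have hV1 : (((VD (k + 1) k N).filter (fun p => ∃ e : Fin n → Fin (k + 1),
      Function.Injective (fun j => p.2 (e j)))).card : ℝ) ≤
      (((k + 1 : ℕ) : ℝ) ^ n * (N : ℝ) ^ n) * ((k + 1).factorial * B) := by
    have hsub : ((VD (k + 1) k N).filter (fun p => ∃ e : Fin n → Fin (k + 1),
        Function.Injective (fun j => p.2 (e j)))) ⊆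
        I.biUnion (fun q => (VD (k + 1) k N).filter (fun p => ∀ j, p.2 (q.1 j) = q.2 j)) := by
      intro p hp
      rw [Finset.mem_filter] at hp
      obtain ⟨hp, e, he⟩ := hp
      rw [Finset.mem_biUnion]
      refine ⟨(e, fun j => p.2 (e j)), ?_, ?_⟩
      · rw [Finset.mem_filter, Finset.mem_product, Fintype.mem_piFinset]
        refine ⟨⟨Finset.mem_univ _, fun j => ?_⟩, he⟩
        exact Finset.mem_Icc.2 (((mem_VD p).1 hp).1.2 _)
      · rw [Finset.mem_filter]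
        exact ⟨hp, fun j => rfl⟩
    have h2 : ((I.biUnion (fun q => (VD (k + 1) k N).filter (fun p => ∀ j, p.2 (q.1 j) = q.2 j))).card : ℝ)
        ≤ ∑ q ∈ I, (((VD (k + 1) k N).filter (fun p => ∀ j, p.2 (q.1 j) = q.2 j)).card : ℝ) := by
      exact_mod_cast Finset.card_biUnion_le
    have h3 : ∀ q ∈ I, (((VD (k + 1) k N).filter (fun p => ∀ j, p.2 (q.1 j) = q.2 j)).card : ℝ) ≤
        (k + 1).factorial * B := by
      intro q hq
      rw [Finset.mem_filter, Finset.mem_product, Fintype.mem_piFinset] at hq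
      obtain ⟨⟨_, hq2⟩, hq3⟩ := hq
      have h4 := card_fst (N := N) hN hn q.1 q.2 hq3
      have h5 := hmain N hN1 q.2 ⟨hq3, fun j => Finset.mem_Icc.1 (hq2 j)⟩
        (((VD (k + 1) k N).filter (fun p => ∀ j, p.2 (q.1 j) = q.2 j)).image Prod.fst)
        (by
          intro x hx
          rw [Finset.mem_image] at hx
          obtain ⟨p, hp, rfl⟩ := hx
          rw [Finset.mem_filter, mem_VD] at hp
          rw [Fintype.mem_piFinset]
          exact fun i => Finset.mem_Icc.2 (hp.1.1.1 i))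
        (by
          intro x hx
          rw [Finset.mem_image] at hx
          obtain ⟨p, hp, rfl⟩ := hx
          rw [Finset.mem_filter] at hp
          have h6 := str_QC hN (a := a) (b := b) hn ha hb p hp.1 q.1
          have h7 : (fun j => p.2 (q.1 j)) = q.2 := funext hp.2
          rw [h7] at h6
          exact h6)
      calc (((VD (k + 1) k N).filter (fun p => ∀ j, p.2 (q.1 j) = q.2 j)).card : ℝ)
          ≤ (((k + 1).factorial * (((VD (k + 1) k N).filter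
              (fun p => ∀ j, p.2 (q.1 j) = q.2 j)).image Prod.fst).card : ℕ) : ℝ) :=
            Nat.cast_le.2 h4
        _ = (k + 1).factorial * ((((VD (k + 1) k N).filter
              (fun p => ∀ j, p.2 (q.1 j) = q.2 j)).image Prod.fst).card : ℝ) := by push_cast; ring
        _ ≤ (k + 1).factorial * B := mul_le_mul_of_nonneg_left h5 (by positivity)
    calc _ ≤ ((I.biUnion (fun q => (VD (k + 1) k N).filter
          (fun p => ∀ j, p.2 (q.1 j) = q.2 j))).card : ℝ) := by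
          exact_mod_cast Finset.card_le_card hsub
      _ ≤ _ := h2
      _ ≤ ∑ q ∈ I, ((k + 1).factorial * B : ℝ) := Finset.sum_le_sum h3
      _ = (I.card : ℝ) * ((k + 1).factorial * B) := by rw [Finset.sum_const, nsmul_eq_mul]
      _ ≤ _ := mul_le_mul_of_nonneg_right hI (by positivity)
  have hV2 : (((VD (k + 1) k N).filter (fun p => ¬ ∃ e : Fin n → Fin (k + 1),
      Function.Injective (fun j => p.2 (e j)))).card : ℝ) ≤
      k.factorial * ((n : ℝ) ^ (k + 1) * (N : ℝ) ^ n * (N : ℝ) ^ 1) := by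
    exact_mod_cast card_V2 (n := n) hN hN1
  have hsum : ((VD (k + 1) k N).card : ℝ) =
      (((VD (k + 1) k N).filter (fun p => ∃ e : Fin n → Fin (k + 1),
      Function.Injective (fun j => p.2 (e j)))).card : ℝ) +
      (((VD (k + 1) k N).filter (fun p => ¬ ∃ e : Fin n → Fin (k + 1),
      Function.Injective (fun j => p.2 (e j)))).card : ℝ) := by
    exact_mod_cast (Finset.card_filter_add_card_filter_not _).symm
  set E : ℝ := (n : ℝ) + a + b + 1 + ((k : ℝ) + 1) / n * (16 / (5 * b) + 1 / a) + ε with hE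
  have hE1 : (N : ℝ) ^ n * (N : ℝ) ^ ((b : ℝ) + a + θ + ε) = (N : ℝ) ^ E := by
    rw [← Real.rpow_natCast, ← Real.rpow_add hN0, hE, hθ]
    congr 1
    push_cast
    ring
  have hE2 : (N : ℝ) ^ n * (N : ℝ) ^ 1 ≤ (N : ℝ) ^ E := by
    rw [← pow_add, ← Real.rpow_natCast]
    apply Real.rpow_le_rpow_of_exponent_le hNr
    rw [hE]
    have h1 : (0 : ℝ) ≤ ((k : ℝ) + 1) / n * (16 / (5 * b) + 1 / a) := by positivity
    have h2 : (0 : ℝ) ≤ a := Nat.cast_nonneg _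
    have h3 : (0 : ℝ) ≤ b := Nat.cast_nonneg _
    push_cast
    linarith
  set Q := (N : ℝ) ^ E with hQ
  have hQ0 : 0 < Q := Real.rpow_pos_of_pos hN0 _
  rw [hsum]
  have t1 : (((k + 1 : ℕ) : ℝ) ^ n * (N : ℝ) ^ n) * ((k + 1).factorial * B) ≤
      ((k + 1 : ℕ) : ℝ) ^ n * ((k + 1).factorial * C1) * Q := by
    have : (((k + 1 : ℕ) : ℝ) ^ n * (N : ℝ) ^ n) * ((k + 1).factorial * B) =
        (((k + 1 : ℕ) : ℝ) ^ n * ((k + 1).factorial * C1)) *
          ((N : ℝ) ^ n * (N : ℝ) ^ ((b : ℝ) + a + θ + ε)) := by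
      rw [hB]; ring
    rw [this, hE1]
  have t2 : k.factorial * ((n : ℝ) ^ (k + 1) * (N : ℝ) ^ n * (N : ℝ) ^ 1) ≤
      k.factorial * (n : ℝ) ^ (k + 1) * Q := by
    have : (k.factorial : ℝ) * ((n : ℝ) ^ (k + 1) * (N : ℝ) ^ n * (N : ℝ) ^ 1) =
        (k.factorial * (n : ℝ) ^ (k + 1)) * ((N : ℝ) ^ n * (N : ℝ) ^ 1) := by ring
    rw [this]
    exact mul_le_mul_of_nonneg_left hE2 (by positivity)
  nlinarith [hV1, hV2, t1, t2, hQ0]

theorem nondiag_cube (k n a b : ℕ) (hn : 1 ≤ n) (ha : 1 ≤ a) (hb : 1 ≤ b) (ε : ℝ) (hε : 0 < ε) :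
    ∃ C : ℝ, 0 ≤ C ∧ ∀ N : ℕ, 1 ≤ N → ((VN (k + 1) k N).card : ℝ) ≤
      C * (N : ℝ) ^ ((n : ℝ) + a + b + 1 + ((k : ℝ) + 1) / n * (16 / (5 * b) + 1 / a) + ε) := by
  apply vn_bound (Pool.Agent.W156.PVRED.main Pool.Agent.W346.PV.Newt.main)
  intro d hd hds
  have hd1 : d = 1 := by omega
  subst hd1
  obtain ⟨C, hC, h⟩ := vd_cube k n a b hn ha hb ε hε
  refine ⟨C, hC, fun N hN => (h N hN).trans (le_of_eq ?_)⟩
  congr 2
  push_cast
  ring

/-- the explicit exponent -/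
theorem nondiag_cube6 (k : ℕ) :
    ∃ C : ℝ, 0 ≤ C ∧ ∀ N : ℕ, 1 ≤ N → ((VN (k + 1) k N).card : ℝ) ≤
      C * (N : ℝ) ^ (6 * ((k : ℝ) + 1) ^ ((1 : ℝ) / 3) + 4) := by
  set σ : ℝ := ((k : ℝ) + 1) ^ ((1 : ℝ) / 3) with hσ
  have hk1 : (1 : ℝ) ≤ (k : ℝ) + 1 := by
    have : (0 : ℝ) ≤ k := Nat.cast_nonneg _
    linarith
  have hσ1 : 1 ≤ σ := Real.one_le_rpow hk1 (by norm_num)
  have hσ3 : σ ^ 3 = (k : ℝ) + 1 := by
    rw [hσ, ← Real.rpow_natCast, ← Real.rpow_mul (by linarith)]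
    norm_num
  have hσ0 : 0 < σ := by linarith
  set n : ℕ := ⌈2 * σ⌉₊ with hn
  set b : ℕ := ⌈5 / 4 * σ⌉₊ with hb
  set a : ℕ := ⌈3 / 4 * σ⌉₊ with ha
  have hn1 : 2 * σ ≤ n := Nat.le_ceil _
  have hb1 : 5 / 4 * σ ≤ b := Nat.le_ceil _
  have ha1 : 3 / 4 * σ ≤ a := Nat.le_ceil _
  have hn2 : (n : ℝ) < 2 * σ + 1 := Nat.ceil_lt_add_one (by positivity)
  have hb2 : (b : ℝ) < 5 / 4 * σ + 1 := Nat.ceil_lt_add_one (by positivity)
  have ha2 : (a : ℝ) < 3 / 4 * σ + 1 := Nat.ceil_lt_add_one (by positivity)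
  have hn0 : 1 ≤ n := Nat.ceil_pos.2 (by positivity)
  have hb0 : 1 ≤ b := Nat.ceil_pos.2 (by positivity)
  have ha0 : 1 ≤ a := Nat.ceil_pos.2 (by positivity)
  obtain ⟨C, hC, h⟩ := nondiag_cube k n a b hn0 ha0 hb0 (1 / 20) (by norm_num)
  refine ⟨C, hC, fun N hN => (h N hN).trans ?_⟩
  apply mul_le_mul_of_nonneg_left _ hC
  apply Real.rpow_le_rpow_of_exponent_le (by exact_mod_cast hN)
  have hnp : (0 : ℝ) < n := by positivity
  have hbp : (0 : ℝ) < b := by positivity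
  have hap : (0 : ℝ) < a := by positivity
  have h1 : ((k : ℝ) + 1) / n ≤ σ ^ 2 / 2 := by
    rw [div_le_div_iff₀ hnp (by norm_num), ← hσ3]
    nlinarith [sq_nonneg σ, mul_le_mul_of_nonneg_left hn1 (sq_nonneg σ)]
  have h2 : (16 : ℝ) / (5 * b) ≤ 64 / (25 * σ) := by
    rw [div_le_div_iff₀ (by positivity) (by positivity)]
    nlinarith
  have h3 : (1 : ℝ) / a ≤ 4 / (3 * σ) := by
    rw [div_le_div_iff₀ (by positivity) (by positivity)]
    nlinarith
  have h4 : ((k : ℝ) + 1) / n * (16 / (5 * b) + 1 / a) ≤ σ ^ 2 / 2 * (64 / (25 * σ) + 4 / (3 * σ)) := by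
    apply mul_le_mul h1 (by linarith) (by positivity) (by positivity)
  have h5 : σ ^ 2 / 2 * (64 / (25 * σ) + 4 / (3 * σ)) = (32 / 25 + 2 / 3) * σ := by
    field_simp
    ring
  rw [h5] at h4
  linarith

end Pool.Agent.TH900.VPC
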