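import Pool.Agent.TH900.VPC.Data

/-! Counting the tuples with the structure found. -/

set_option autoImplicit false

namespace Pool.Agent.TH900.VPC

open Finset
open Pool.Agent.W89.VP
open Pool.Agent.W505.PV.VF (wf wf_mul_vf vf_pos vf_eq)
open Pool.Agent.W89.VP.FinP (card_le_of_cover divs)
open Pool.Agent.TH900.VPS

set_option maxHeartbeats 400000

/-- the structure with all the data fixed -/
def P1 {n s b : ℕ} (N : ℕ) (y' : Fin n → ℕ) (z : Fin b → ℕ) (D : ℕ) (j0 : Fin n)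
    (T : Finset (Fin s)) (Q : ℕ) (x : Fin s → ℕ) : Prop :=
  (∀ i j, x i ≠ y' j) ∧ (∀ i r, x i ≠ z r) ∧
  (∀ t, t ∉ T → N ≤ LC (HH D y' x t) z (x t)) ∧
  (∀ t ∈ T, vf (HH D y' x t) (ds (y' j0) (x t)) ∣ Q)

lemma HH_congr {n s : ℕ} (D : ℕ) (y' : Fin n → ℕ) {x x' : Fin s → ℕ} {i : Fin s}
    (h : ∀ i' < i, x i' = x' i') : HH D y' x i = HH D y' x' i := by
  unfold HH
  rw [Hp_congr y' h]

lemma HH_le {n s N a D : ℕ} (hN : 1 ≤ N) (hD : D ≤ N ^ a) {y' : Fin n → ℕ} {x : Fin s → ℕ}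
    (hy : Good n N y') (hx : ∀ i, 1 ≤ x i ∧ x i ≤ N) (i : Fin s) :
    HH D y' x i ≤ N ^ (n * n + a + s * n) := by
  unfold HH
  rw [pow_add, pow_add]
  exact Nat.mul_le_mul (Nat.mul_le_mul (Vd_le hN hy) hD) (Hp_le hN hy hx i)

lemma HH_pos {n s D : ℕ} (hD : 1 ≤ D) {y' : Fin n → ℕ} {x : Fin s → ℕ}
    (hy : Function.Injective y') (hxy : ∀ i j, x i ≠ y' j) (i : Fin s) : 1 ≤ HH D y' x i := by
  unfold HH
  exact Nat.mul_pos (Nat.mul_pos (Vd_pos' hy) hD) (Hp_pos hxy i)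

lemma inner1c (hDV : DIVStm) (hVI : VINFStm) (n s a b L : ℕ) (hs : 1 ≤ s) (e : ℝ) (he : 0 < e) :
    ∃ C : ℝ, 0 < C ∧ ∀ N : ℕ, 1 ≤ N → ∀ y' : Fin n → ℕ, Good n N y' →
      ∀ z : Fin b → ℕ, (∀ r, 1 ≤ z r ∧ z r ≤ N) → ∀ D : ℕ, 1 ≤ D → D ≤ N ^ a →
      ∀ (j0 : Fin n) (Tt : Finset (Fin s)) (Q : ℕ), 1 ≤ Q → Q ≤ N ^ L →
      ∀ T : Finset (Fin s → ℕ), T ⊆ (Fintype.piFinset fun _ : Fin s => Finset.Icc 1 N) →
      (∀ x ∈ T, P1 N y' z D j0 Tt Q x) → (T.card : ℝ) ≤ C * (N : ℝ) ^ e := by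
  classical
  have hsr : (0 : ℝ) < s := by exact_mod_cast hs
  set e1 : ℝ := e / (s * (b + 2)) with he1
  have he1p : 0 < e1 := by positivity
  obtain ⟨C3', hC3', h3'⟩ := divs hDV L _ he1p
  obtain ⟨C4', hC4', h4'⟩ := hVI (n * n + a + s * n) _ he1p
  set C3 := max C3' 1 with hC3
  set C4 := max C4' 1 with hC4
  have hC31 : 1 ≤ C3 := le_max_right _ _
  have hC41 : 1 ≤ C4 := le_max_right _ _
  refine ⟨(2 * C3 * C4 ^ (b + 1)) ^ s, by positivity, ?_⟩
  intro N hN y' hy z hz D hD1 hDN j0 Tt Q hQ1 hQN T hT hTx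
  have hNr : (1 : ℝ) ≤ N := by exact_mod_cast hN
  have hNp : (0 : ℝ) < N := by linarith
  have hNe : (1 : ℝ) ≤ (N : ℝ) ^ e1 := Real.one_le_rpow hNr he1p.le
  set B : ℝ := 2 * ((C3 * (N : ℝ) ^ e1) * (C4 * (N : ℝ) ^ e1) ^ (b + 1)) with hB
  have hB0 : 0 ≤ B := by positivity
  have hCN3 : 1 ≤ C3 * (N : ℝ) ^ e1 := one_le_mul_of_one_le_of_one_le hC31 hNe
  have hCN4 : 1 ≤ C4 * (N : ℝ) ^ e1 := one_le_mul_of_one_le_of_one_le hC41 hNe
  let W : Fin s → (Fin s → ℕ) → Finset ℕ := fun i x =>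
    (Finset.Icc 1 N).filter (fun u => ∀ p ∈ u.primeFactors, p ∣ HH D y' x i)
  let S : Fin s → (Fin s → ℕ) → Finset ℕ := fun i x =>
    if i ∈ Tt then
      ((Q.divisors ×ˢ W i x).image (fun t => y' j0 + t.2 * t.1)) ∪
      ((Q.divisors ×ˢ W i x).image (fun t => y' j0 - t.2 * t.1))
    else (Icc 1 N).filter (fun u => (∀ r, u ≠ z r) ∧ N ≤ LC (HH D y' x i) z u)
  have hxN : ∀ x ∈ T, ∀ i, 1 ≤ x i ∧ x i ≤ N := fun x hx i =>
    Finset.mem_Icc.1 (Fintype.mem_piFinset.1 (hT hx) i)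
  have hWc : ∀ x ∈ T, ∀ i, ((W i x).card : ℝ) ≤ C4 * (N : ℝ) ^ e1 := by
    intro x hx i
    have h1 := HH_pos hD1 hy.1 (hTx x hx).1 i
    have h2 := HH_le hN hDN hy (hxN x hx) i
    refine (h4' N (HH D y' x i) hN h1 h2).trans ?_
    exact mul_le_mul_of_nonneg_right (le_max_left _ _) (by positivity)
  have hQc : ((Q.divisors.card : ℕ) : ℝ) ≤ C3 * (N : ℝ) ^ e1 := by
    refine (h3' N hN Q hQ1 hQN).trans ?_
    exact mul_le_mul_of_nonneg_right (le_max_left _ _) (by positivity)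
  have hSc : ∀ x ∈ T, ∀ i, (S i x).card ≤ ⌊B⌋₊ := by
    intro x hx i
    apply Nat.le_floor
    have hw := hWc x hx i
    by_cases hi : i ∈ Tt
    · simp only [S]
      rw [if_pos hi]
      have h1 : (((Q.divisors ×ˢ W i x).image (fun t => y' j0 + t.2 * t.1)) ∪
          ((Q.divisors ×ˢ W i x).image (fun t => y' j0 - t.2 * t.1))).card ≤
          2 * (Q.divisors.card * (W i x).card) := by
        refine (Finset.card_union_le _ _).trans ?_
        have h2 := Finset.card_image_le (s := Q.divisors ×ˢ W i x) (f := fun t => y' j0 + t.2 * t.1)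
        have h3 := Finset.card_image_le (s := Q.divisors ×ˢ W i x) (f := fun t => y' j0 - t.2 * t.1)
        rw [Finset.card_product] at h2 h3
        omega
      have h2 : (C4 * (N : ℝ) ^ e1) ≤ (C4 * (N : ℝ) ^ e1) ^ (b + 1) :=
        le_self_pow₀ hCN4 (by omega)
      calc _ ≤ 2 * ((Q.divisors.card : ℝ) * ((W i x).card : ℝ)) := by exact_mod_cast h1
        _ ≤ B := by
          rw [hB]
          have := hw.trans h2
          gcongr
    · simp only [S]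
      rw [if_neg hi]
      have h1 := cand_card (b := b) (N := N) (HH D y' x i) z (W i x) (by
        intro r u hu hur
        simp only [W]
        rw [mem_filter, Finset.mem_Icc]
        have h0 := ds_pos' hur
        refine ⟨⟨wf_pos _ _, (Nat.le_of_dvd h0 (wf_dvd _ _ h0)).trans
          (ds_le' (hz r) (Finset.mem_Icc.1 hu))⟩, ?_⟩
        intro p hp
        exact prime_dvd_wf (Nat.prime_of_mem_primeFactors hp) (Nat.dvd_of_mem_primeFactors hp))
      have h2 : ((W i x).card : ℝ) ^ b ≤ (C4 * (N : ℝ) ^ e1) ^ (b + 1) :=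
        (pow_le_pow_left₀ (Nat.cast_nonneg _) hw b).trans (pow_le_pow_right₀ hCN4 (by omega))
      calc _ ≤ ((W i x).card : ℝ) ^ b := by exact_mod_cast h1
        _ ≤ (C4 * (N : ℝ) ^ e1) ^ (b + 1) := h2
        _ ≤ B := by
          rw [hB]
          have h3 : (0 : ℝ) ≤ (C4 * (N : ℝ) ^ e1) ^ (b + 1) := by positivity
          nlinarith
  have key := tree_card S T (by
      intro i x _ x' _ h
      simp only [S, W]
      rw [HH_congr D y' h]) hSc (by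
      intro x hx i
      obtain ⟨q1, q2, q3, q4⟩ := hTx x hx
      by_cases hi : i ∈ Tt
      · simp only [S]
        rw [if_pos hi]
        have h1 := q4 i hi
        have h0 := ds_pos' (q1 i j0)
        have hdN : ds (y' j0) (x i) ≤ N := ds_le' (hy.2 j0) (hxN x hx i)
        set V' := HH D y' x i with hV'
        set u := ds (y' j0) (x i) with hu
        have hw : wf V' u ∈ W i x := by
          simp only [W]
          rw [mem_filter, Finset.mem_Icc]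
          refine ⟨⟨wf_pos _ _, (Nat.le_of_dvd h0 (wf_dvd _ _ h0)).trans hdN⟩, ?_⟩
          intro p hp
          exact prime_dvd_wf (Nat.prime_of_mem_primeFactors hp) (Nat.dvd_of_mem_primeFactors hp)
        have ht : (vf V' u, wf V' u) ∈ Q.divisors ×ˢ W i x := by
          rw [Finset.mem_product, Nat.mem_divisors]
          exact ⟨⟨h1, by omega⟩, hw⟩
        have hmul : wf V' u * vf V' u = u := wf_mul_vf V' u h0
        rw [Finset.mem_union]
        rcases le_total (y' j0) (x i) with hle | hle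
        · left
          rw [Finset.mem_image]
          refine ⟨_, ht, ?_⟩
          simp only
          rw [hmul, hu]
          unfold ds
          omega
        · right
          rw [Finset.mem_image]
          refine ⟨_, ht, ?_⟩
          simp only
          rw [hmul, hu]
          unfold ds
          omega
      · simp only [S]
        rw [if_neg hi, Finset.mem_filter]
        exact ⟨Finset.mem_Icc.2 (hxN x hx i), q2 i, q3 i hi⟩)
  have hfl : ((⌊B⌋₊ : ℕ) : ℝ) ≤ B := Nat.floor_le hB0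
  calc (T.card : ℝ) ≤ ((⌊B⌋₊ : ℕ) : ℝ) ^ s := by exact_mod_cast key
    _ ≤ B ^ s := pow_le_pow_left₀ (Nat.cast_nonneg _) hfl s
    _ = (2 * C3 * C4 ^ (b + 1)) ^ s * (((N : ℝ) ^ e1) ^ (b + 2)) ^ s := by
        rw [hB, ← mul_pow]; ring
    _ = (2 * C3 * C4 ^ (b + 1)) ^ s * (N : ℝ) ^ e := by
        congr 1
        rw [← pow_mul, ← Real.rpow_natCast, ← Real.rpow_mul hNp.le]
        congr 1
        rw [he1]
        push_cast
        field_simp

/-- the structure -/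
def QC (n s a b N : ℕ) (θ : ℝ) (y' : Fin n → ℕ) (x : Fin s → ℕ) : Prop :=
  ∃ (z : Fin b → ℕ) (D : ℕ) (j0 : Fin n) (T : Finset (Fin s)) (Q : ℕ),
    (∀ r, 1 ≤ z r ∧ z r ≤ N) ∧ 1 ≤ D ∧ D ≤ N ^ a ∧ 1 ≤ Q ∧ (Q : ℝ) ≤ (N : ℝ) ^ θ ∧ Q ≤ N ^ s ∧
    P1 N y' z D j0 T Q x

lemma count_QC (hDV : DIVStm) (hVI : VINFStm) (n s a b : ℕ) (θ : ℝ) (hs : 1 ≤ s) (e : ℝ)
    (he : 0 < e) :
    ∃ C : ℝ, 0 < C ∧ ∀ N : ℕ, 1 ≤ N → ∀ y' : Fin n → ℕ, Good n N y' →
      ∀ T : Finset (Fin s → ℕ), T ⊆ (Fintype.piFinset fun _ : Fin s => Finset.Icc 1 N) →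
      (∀ x ∈ T, QC n s a b N θ y' x) →
      (T.card : ℝ) ≤ C * (N : ℝ) ^ ((b : ℝ) + a + θ + e) := by
  classical
  obtain ⟨C, hC, h⟩ := inner1c hDV hVI n s a b s hs e he
  refine ⟨((n : ℝ) + 1) * 2 ^ s * C, by positivity, ?_⟩
  intro N hN y' hy T hT hQ
  have hNr : (1 : ℝ) ≤ N := by exact_mod_cast hN
  have hNp : (0 : ℝ) < N := by linarith
  let I : Finset ((Fin b → ℕ) × ℕ × Fin n × Finset (Fin s) × ℕ) :=
    (Fintype.piFinset fun _ : Fin b => Finset.Icc 1 N) ×ˢ (Finset.Icc 1 (N ^ a) ×ˢ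
      ((univ : Finset (Fin n)) ×ˢ ((univ : Finset (Finset (Fin s))) ×ˢ
        Finset.Icc 1 (min ⌊(N : ℝ) ^ θ⌋₊ (N ^ s)))))
  have key : (T.card : ℝ) ≤ (I.card : ℝ) * (C * (N : ℝ) ^ e) := by
    apply card_le_of_cover T I (fun q x => P1 N y' q.1 q.2.1 q.2.2.1 q.2.2.2.1 q.2.2.2.2 x)
    · intro x hx
      obtain ⟨z, D, j0, T', Q, hz, hD1, hDN, hQ1, hQθ, hQN, hP⟩ := hQ x hx
      refine ⟨(z, D, j0, T', Q), ?_, hP⟩
      simp only [I, Finset.mem_product, Fintype.mem_piFinset, Finset.mem_Icc, Finset.mem_univ,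
        true_and]
      exact ⟨hz, ⟨hD1, hDN⟩, hQ1, le_min (Nat.le_floor hQθ) hQN⟩
    · rintro ⟨z, D, j0, T', Q⟩ hq T'' hT'' hP
      simp only [I, Finset.mem_product, Fintype.mem_piFinset, Finset.mem_Icc, Finset.mem_univ,
        true_and] at hq
      exact h N hN y' hy z hq.1 D hq.2.1.1 hq.2.1.2 j0 T' Q hq.2.2.1
        (hq.2.2.2.trans (min_le_right _ _)) T'' (hT''.trans hT) hP
  have hI : (I.card : ℝ) ≤ (N : ℝ) ^ b * ((N : ℝ) ^ a * ((n : ℝ) * (2 ^ s * (N : ℝ) ^ θ))) := by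
    simp only [I]
    rw [Finset.card_product, Finset.card_product, Finset.card_product, Finset.card_product,
      Fintype.card_piFinset, Nat.card_Icc, Nat.card_Icc, Finset.card_univ, Finset.card_univ,
      Fintype.card_fin, Fintype.card_finset, Fintype.card_fin]
    simp only [Nat.card_Icc, Nat.add_sub_cancel, Finset.prod_const, Finset.card_univ,
      Fintype.card_fin]
    push_cast
    have h1 : (((⌊(N : ℝ) ^ θ⌋₊ ⊓ N ^ s : ℕ)) : ℝ) ≤ (N : ℝ) ^ θ := by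
      have h2 : (((⌊(N : ℝ) ^ θ⌋₊ ⊓ N ^ s : ℕ)) : ℝ) ≤ ((⌊(N : ℝ) ^ θ⌋₊ : ℕ) : ℝ) := by
        exact_mod_cast min_le_left _ _
      exact h2.trans (Nat.floor_le (by positivity))
    push_cast at h1
    gcongr
  calc (T.card : ℝ) ≤ (I.card : ℝ) * (C * (N : ℝ) ^ e) := key
    _ ≤ ((N : ℝ) ^ b * ((N : ℝ) ^ a * ((n : ℝ) * (2 ^ s * (N : ℝ) ^ θ)))) * (C * (N : ℝ) ^ e) :=
        mul_le_mul_of_nonneg_right hI (by positivity)
    _ = ((n : ℝ) * 2 ^ s * C) * ((N : ℝ) ^ b * (N : ℝ) ^ a * (N : ℝ) ^ θ * (N : ℝ) ^ e) := by ring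
    _ = ((n : ℝ) * 2 ^ s * C) * (N : ℝ) ^ ((b : ℝ) + a + θ + e) := by
        rw [Real.rpow_add hNp, Real.rpow_add hNp, Real.rpow_add hNp, Real.rpow_natCast,
          Real.rpow_natCast]
    _ ≤ (((n : ℝ) + 1) * 2 ^ s * C) * (N : ℝ) ^ ((b : ℝ) + a + θ + e) := by
        apply mul_le_mul_of_nonneg_right _ (by positivity)
        have : (0 : ℝ) ≤ 2 ^ s * C := by positivity
        nlinarith

end Pool.Agent.TH900.VPC
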