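import Mathlib

/-! A covering lemma: a few random columns catch most of the mass of a row. -/

set_option autoImplicit false

namespace Pool.Agent.TH900.VPC

open Finset

/-- damping function -/
noncomputable def phi (L u : ℝ) : ℝ := if u < L then Real.exp (-(u / L)) else 0

lemma phi_nn (L u : ℝ) : 0 ≤ phi L u := by
  unfold phi
  split_ifs
  · positivity
  · exact le_rfl

lemma exp_neg_le {x : ℝ} (h0 : 0 ≤ x) (h1 : x ≤ 1) : Real.exp (-x) ≤ 1 - 5 / 8 * x := by
  have h := convexOn_exp.2 (Set.mem_univ (0 : ℝ)) (Set.mem_univ (-1 : ℝ))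
    (by linarith : (0 : ℝ) ≤ 1 - x) h0 (by ring)
  have he : Real.exp (-1) ≤ 3 / 8 := by
    rw [Real.exp_neg, inv_le_comm₀ (Real.exp_pos 1) (by norm_num)]
    have := Real.exp_one_gt_d9
    norm_num at this ⊢
    linarith
  simp only [smul_eq_mul, mul_zero, zero_add, Real.exp_zero, mul_one] at h
  have h2 : x * -1 = -x := by ring
  rw [h2] at h
  have h3 := mul_le_mul_of_nonneg_left he h0
  linarith

lemma phi_step {L u X : ℝ} (hL : 0 < L) (h0 : 0 ≤ X) (h1 : X ≤ L) :
    phi L (u + X) ≤ phi L u * (1 - 5 / 8 * (X / L)) := by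
  unfold phi
  by_cases hu : u < L
  · rw [if_pos hu]
    have h2 : Real.exp (-((u + X) / L)) = Real.exp (-(u / L)) * Real.exp (-(X / L)) := by
      rw [← Real.exp_add]; congr 1; field_simp; ring
    have h3 := exp_neg_le (x := X / L) (by positivity) (by rw [div_le_one hL]; exact h1)
    have h4 : Real.exp (-(u / L)) * Real.exp (-(X / L)) ≤
        Real.exp (-(u / L)) * (1 - 5 / 8 * (X / L)) :=
      mul_le_mul_of_nonneg_left h3 (Real.exp_pos _).le
    split_ifs
    · rw [h2]; exact h4
    · exact le_trans (by positivity) h4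
  · rw [if_neg hu, if_neg (by linarith), zero_mul]

/-- total mass of a valuation vector -/
noncomputable def mass {ι : Type*} (K : Finset ι) (ω : ι → ℝ) (M : ι → ℕ) : ℝ :=
  ∑ q ∈ K, (M q : ℝ) * ω q

section

variable {ι : Type*} (K : Finset ι) (ω : ι → ℝ) (hω : ∀ q ∈ K, 0 ≤ ω q) (s a : ℕ) (ha : 1 ≤ a)
  (v : ι → Fin s → ℕ) (c : ι → ℕ) (hsum : ∀ q ∈ K, ∑ j, v q j = c q)
  (hsp : ∀ q ∈ K, a * c q ≤ s) (L : ℝ) (hL : 0 < L)
  (hcol : ∀ j, mass K ω (fun q => v q j) ≤ L)

include hω in
lemma mass_mono {M M' : ι → ℕ} (h : ∀ q ∈ K, M q ≤ M' q) : mass K ω M ≤ mass K ω M' := by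
  unfold mass
  apply Finset.sum_le_sum
  intro q hq
  have h1 : (M q : ℝ) ≤ M' q := by exact_mod_cast h q hq
  exact mul_le_mul_of_nonneg_right h1 (hω q hq)

include hω ha hsum hsp hL hcol in
lemma one_step (μ : ℝ) (hμ : s * L * μ ≤ mass K ω c - s * L / a) (M : ι → ℕ) :
    ∑ j, phi L (mass K ω (fun q => M q ⊔ v q j)) ≤ (s * (1 - 5 / 8 * μ)) * phi L (mass K ω M) := by
  classical
  have har : (0 : ℝ) < a := by exact_mod_cast ha
  by_cases hu : mass K ω M < L
  · let X : Fin s → ℝ := fun j => mass K ω (fun q => M q ⊔ v q j) - mass K ω M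
    have hX0 : ∀ j, 0 ≤ X j := fun j =>
      sub_nonneg.2 (mass_mono K ω hω (fun q _ => le_sup_left))
    have hXe : ∀ j, X j = ∑ q ∈ K, (((M q ⊔ v q j : ℕ) : ℝ) - M q) * ω q := by
      intro j
      simp only [X, mass]
      rw [← Finset.sum_sub_distrib]
      exact Finset.sum_congr rfl (fun q _ => by ring)
    have hXL : ∀ j, X j ≤ L := by
      intro j
      refine le_trans ?_ (hcol j)
      rw [hXe j]
      unfold mass
      apply Finset.sum_le_sum
      intro q hq
      apply mul_le_mul_of_nonneg_right _ (hω q hq)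
      have h1 : M q ⊔ v q j ≤ M q + v q j := by omega
      have h2 : ((M q ⊔ v q j : ℕ) : ℝ) ≤ M q + v q j := by exact_mod_cast h1
      linarith
    have hXs : s * L * μ ≤ ∑ j, X j := by
      refine hμ.trans ?_
      have h1 : ∀ j, ∑ q ∈ K, ((v q j : ℝ) - M q * v q j) * ω q ≤ X j := by
        intro j
        rw [hXe j]
        apply Finset.sum_le_sum
        intro q hq
        apply mul_le_mul_of_nonneg_right _ (hω q hq)
        rcases Nat.eq_zero_or_pos (v q j) with h0 | h0
        · rw [h0]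
          have h2 : (M q : ℝ) ≤ ((M q ⊔ 0 : ℕ) : ℝ) := by exact_mod_cast le_sup_left
          simp only [Nat.cast_zero, mul_zero, sub_zero]
          linarith
        · have h2 : ((v q j : ℕ) : ℝ) ≤ ((M q ⊔ v q j : ℕ) : ℝ) := by exact_mod_cast le_sup_right
          have h3 : (1 : ℝ) ≤ v q j := by exact_mod_cast h0
          have h4 : (0 : ℝ) ≤ M q := Nat.cast_nonneg _
          nlinarith
      refine le_trans ?_ (Finset.sum_le_sum (fun j _ => h1 j))
      rw [Finset.sum_comm]
      have h5 : ∀ q ∈ K, ∑ j, ((v q j : ℝ) - M q * v q j) * ω q = (c q : ℝ) * ω q - (M q * c q) * ω q := by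
        intro q hq
        have h6 : ∑ j, (v q j : ℝ) = c q := by
          rw [← hsum q hq]; push_cast; rfl
        rw [← Finset.sum_mul, Finset.sum_sub_distrib, ← Finset.mul_sum, h6]
        ring
      rw [Finset.sum_congr rfl h5, Finset.sum_sub_distrib]
      have h7 : ∑ q ∈ K, ((M q : ℝ) * c q) * ω q ≤ s / a * mass K ω M := by
        unfold mass
        rw [Finset.mul_sum]
        apply Finset.sum_le_sum
        intro q hq
        have h8 : (a : ℝ) * c q ≤ s := by exact_mod_cast hsp q hq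
        have h9 : (c q : ℝ) ≤ s / a := by rw [le_div_iff₀ har]; linarith
        have h10 : (0 : ℝ) ≤ M q * ω q := mul_nonneg (Nat.cast_nonneg _) (hω q hq)
        nlinarith
      have h11 : s / a * mass K ω M ≤ s * L / a := by
        rw [mul_div_right_comm]
        exact mul_le_mul_of_nonneg_left hu.le (by positivity)
      unfold mass at h7 h11 ⊢
      linarith
    have h1 : ∀ j, phi L (mass K ω (fun q => M q ⊔ v q j)) ≤
        phi L (mass K ω M) * (1 - 5 / 8 * (X j / L)) := by
      intro j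
      have h2 : mass K ω (fun q => M q ⊔ v q j) = mass K ω M + X j := by simp only [X]; ring
      rw [h2]
      exact phi_step hL (hX0 j) (hXL j)
    refine (Finset.sum_le_sum (fun j _ => h1 j)).trans ?_
    rw [← Finset.mul_sum, mul_comm]
    apply mul_le_mul_of_nonneg_right _ (phi_nn _ _)
    rw [Finset.sum_sub_distrib, ← Finset.mul_sum, ← Finset.sum_div]
    have h3 : s * μ ≤ (∑ j, X j) / L := by
      rw [le_div_iff₀ hL]; linarith
    simp only [Finset.sum_const, Finset.card_univ, Fintype.card_fin, nsmul_eq_mul, mul_one]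
    linarith
  · have h1 : ∀ j, phi L (mass K ω (fun q => M q ⊔ v q j)) = 0 := by
      intro j
      have h2 := mass_mono K ω hω (M := M) (M' := fun q => M q ⊔ v q j) (fun q _ => le_sup_left)
      unfold phi
      rw [if_neg (by linarith)]
    have h3 : phi L (mass K ω M) = 0 := by
      unfold phi
      rw [if_neg hu]
    rw [h3, mul_zero]
    simp [h1]

include hω ha hsum hsp hL hcol in
lemma all_steps (μ : ℝ) (hμ : s * L * μ ≤ mass K ω c - s * L / a) (hμ1 : μ ≤ 1) (b : ℕ) :
    ∀ M : ι → ℕ, ∑ τ : Fin b → Fin s, phi L (mass K ω (fun q => M q ⊔ univ.sup (fun r => v q (τ r))))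
      ≤ (s * (1 - 5 / 8 * μ)) ^ b * phi L (mass K ω M) := by
  classical
  induction b with
  | zero =>
    intro M
    simp
  | succ b ih =>
    intro M
    have h0 : (0 : ℝ) ≤ s * (1 - 5 / 8 * μ) := mul_nonneg (Nat.cast_nonneg _) (by linarith)
    have h1 : ∑ τ : Fin (b + 1) → Fin s,
        phi L (mass K ω (fun q => M q ⊔ univ.sup (fun r => v q (τ r)))) =
        ∑ j : Fin s, ∑ τ : Fin b → Fin s,
          phi L (mass K ω (fun q => (M q ⊔ v q j) ⊔ univ.sup (fun r => v q (τ r)))) := by
      rw [← Fintype.sum_prod_type']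
      refine (Fintype.sum_equiv (Fin.consEquiv (fun _ => Fin s)) _ _ ?_).symm
      rintro ⟨j, τ⟩
      congr 2
      funext q
      rw [Fin.univ_succ, Finset.sup_cons, Finset.sup_map, sup_assoc]
      rfl
    rw [h1]
    calc _ ≤ ∑ j : Fin s, (s * (1 - 5 / 8 * μ)) ^ b * phi L (mass K ω (fun q => M q ⊔ v q j)) :=
          Finset.sum_le_sum (fun j _ => ih _)
      _ = (s * (1 - 5 / 8 * μ)) ^ b * ∑ j : Fin s, phi L (mass K ω (fun q => M q ⊔ v q j)) := by
          rw [Finset.mul_sum]
      _ ≤ (s * (1 - 5 / 8 * μ)) ^ b * ((s * (1 - 5 / 8 * μ)) * phi L (mass K ω M)) :=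
          mul_le_mul_of_nonneg_left (one_step K ω hω s a ha v c hsum hsp L hL hcol μ hμ M)
            (pow_nonneg h0 _)
      _ = _ := by ring

end

end Pool.Agent.TH900.VPC
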