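import Pool.Agent.TH900.VPC.Cov

/-! A covering lemma: a few random columns catch most of the mass of a row. -/

set_option autoImplicit false

namespace Pool.Agent.TH900.VPC

open Finset

section

variable {ι : Type*} (K : Finset ι) (ω : ι → ℝ) (hω : ∀ q ∈ K, 0 ≤ ω q) (s a : ℕ) (ha : 1 ≤ a)
  (v : ι → Fin s → ℕ) (c : ι → ℕ) (hsum : ∀ q ∈ K, ∑ j, v q j = c q)
  (hsp : ∀ q ∈ K, a * c q ≤ s) (L : ℝ) (hL : 0 < L)
  (hcol : ∀ j, mass K ω (fun q => v q j) ≤ L)

set_option maxHeartbeats 400000

include hω ha hsum hsp hL hcol in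
/-- few column choices catch less than the mass `L` -/
theorem cov_card (hs : 1 ≤ s) (b : ℕ) :
    (((univ : Finset (Fin b → Fin s)).filter
      (fun τ => mass K ω (fun q => univ.sup (fun r => v q (τ r))) < L)).card : ℝ) ≤
      (s : ℝ) ^ b * min 1 (Real.exp ((1 + 5 * b / (8 * a)) - (5 * b / (8 * (s * L))) * mass K ω c)) := by
  classical
  have har : (0 : ℝ) < a := by exact_mod_cast ha
  have hsr : (0 : ℝ) < s := by exact_mod_cast hs
  have hbr : (0 : ℝ) ≤ b := Nat.cast_nonneg _
  set m := mass K ω c with hm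
  set S : Finset (Fin b → Fin s) := (univ : Finset (Fin b → Fin s)).filter
      (fun τ => mass K ω (fun q => univ.sup (fun r => v q (τ r))) < L) with hS
  have htriv : (S.card : ℝ) ≤ (s : ℝ) ^ b := by
    have h1 : S.card ≤ (univ : Finset (Fin b → Fin s)).card := Finset.card_le_card (Finset.subset_univ S)
    rw [Finset.card_univ, Fintype.card_pi_const, Fintype.card_fin] at h1
    exact_mod_cast h1
  rw [mul_min_of_nonneg _ _ (by positivity), mul_one]
  refine le_min htriv ?_
  set μ : ℝ := m / (s * L) - 1 / a with hμ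
  have hexp : (1 + 5 * (b : ℝ) / (8 * a)) - (5 * b / (8 * (s * L))) * m = 1 - 5 / 8 * μ * b := by
    rw [hμ]; field_simp; ring
  rw [hexp]
  rcases le_or_gt μ 0 with h0 | h0
  · refine htriv.trans ?_
    have h1 : (1 : ℝ) ≤ Real.exp (1 - 5 / 8 * μ * b) := by
      apply Real.one_le_exp
      nlinarith
    nlinarith [pow_pos hsr b]
  · have hmL : m ≤ s * L := by
      have h1 : m = ∑ j : Fin s, mass K ω (fun q => v q j) := by
        rw [hm]
        unfold mass
        rw [Finset.sum_comm]
        apply Finset.sum_congr rfl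
        intro q hq
        rw [← Finset.sum_mul, ← hsum q hq]
        push_cast
        rfl
      rw [h1]
      calc _ ≤ ∑ _j : Fin s, L := Finset.sum_le_sum (fun j _ => hcol j)
        _ = s * L := by simp
    have hμ1 : μ ≤ 1 := by
      have h1 : m / (s * L) ≤ 1 := by
        rw [div_le_one (by positivity)]; exact hmL
      have h2 : (0 : ℝ) < 1 / a := by positivity
      linarith
    have hμ2 : s * L * μ ≤ m - s * L / a := by
      rw [hμ]
      apply le_of_eq
      field_simp
    have h1 := all_steps K ω hω s a ha v c hsum hsp L hL hcol μ hμ2 hμ1 b (fun _ => 0)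
    have h2 : phi L (mass K ω (fun _ => 0)) = 1 := by
      unfold phi mass
      simp [hL]
    rw [h2, mul_one] at h1
    have h4 : ∀ τ : Fin b → Fin s, (fun q => 0 ⊔ univ.sup (fun r => v q (τ r))) =
        fun q => univ.sup (fun r => v q (τ r)) := by
      intro τ
      funext q
      exact Nat.zero_max _
    simp only [h4] at h1
    have h3 : (S.card : ℝ) * Real.exp (-1) ≤
        ∑ τ : Fin b → Fin s, phi L (mass K ω (fun q => univ.sup (fun r => v q (τ r)))) := by
      have e1 : (S.card : ℝ) * Real.exp (-1) = ∑ _τ ∈ S, Real.exp (-1) := by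
        rw [Finset.sum_const, nsmul_eq_mul]
      have e2 : ∑ _τ ∈ S, Real.exp (-1) ≤
          ∑ τ ∈ S, phi L (mass K ω (fun q => univ.sup (fun r => v q (τ r)))) := by
        apply Finset.sum_le_sum
        intro τ hτ
        have hτ2 := (Finset.mem_filter.1 hτ).2
        unfold phi
        rw [if_pos hτ2]
        apply Real.exp_le_exp.2
        have h5 : mass K ω (fun q => univ.sup (fun r => v q (τ r))) / L ≤ 1 := by
          rw [div_le_one hL]; exact hτ2.le
        linarith
      have e3 : ∑ τ ∈ S, phi L (mass K ω (fun q => univ.sup (fun r => v q (τ r)))) ≤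
          ∑ τ : Fin b → Fin s, phi L (mass K ω (fun q => univ.sup (fun r => v q (τ r)))) := by
        apply Finset.sum_le_sum_of_subset_of_nonneg (Finset.subset_univ S)
        intro τ _ _
        exact phi_nn _ _
      rw [e1]
      exact e2.trans e3
    have h6 : (0 : ℝ) ≤ 1 - 5 / 8 * μ := by linarith
    have h7 : (1 - 5 / 8 * μ) ^ b ≤ Real.exp (-(5 / 8 * μ * b)) := by
      have h8 : 1 - 5 / 8 * μ ≤ Real.exp (-(5 / 8 * μ)) := by
        have := Real.add_one_le_exp (-(5 / 8 * μ))
        linarith
      calc (1 - 5 / 8 * μ) ^ b ≤ (Real.exp (-(5 / 8 * μ))) ^ b := pow_le_pow_left₀ h6 h8 b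
        _ = Real.exp (-(5 / 8 * μ * b)) := by
          rw [← Real.exp_nat_mul]; congr 1; ring
    have h9 : ((s : ℝ) * (1 - 5 / 8 * μ)) ^ b ≤ (s : ℝ) ^ b * Real.exp (-(5 / 8 * μ * b)) := by
      rw [mul_pow]
      exact mul_le_mul_of_nonneg_left h7 (by positivity)
    have h10 := (h3.trans h1).trans h9
    have h11 : Real.exp (1 - 5 / 8 * μ * b) = Real.exp (-(5 / 8 * μ * b)) * Real.exp 1 := by
      rw [← Real.exp_add]; congr 1; ring
    have h12 : Real.exp (-1) * Real.exp 1 = 1 := by
      rw [← Real.exp_add]; simp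
    rw [h11, ← mul_assoc]
    have h13 := mul_le_mul_of_nonneg_right h10 (Real.exp_pos 1).le
    rw [mul_assoc, h12, mul_one] at h13
    exact h13

end

end Pool.Agent.TH900.VPC
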