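import Mathlib

/-! A telescoping estimate. -/

set_option autoImplicit false

namespace Pool.Agent.TH900.VPC

open Finset

set_option maxHeartbeats 400000

lemma tele (f G : ℝ → ℝ) (A : ℝ) (hf : ∀ w w', w ≤ w' → f w' ≤ f w)
    (hG : ∀ w w', w ≤ w' → (w' - w) * f w' ≤ G w - G w') (s : ℕ) :
    ∀ u : Fin s → ℝ, (∀ i, 0 ≤ u i ∧ u i ≤ A) →
    ∑ t, u t * f (∑ t' ∈ Iio t, u t') + G (∑ t, u t) + A * f (∑ t, u t) ≤ G 0 + A * f 0 := by
  induction s with
  | zero =>
    intro u _
    simp
  | succ s ih =>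
    intro u hu
    have h1 := ih (fun t => u t.castSucc) (fun t => hu _)
    have h2 : ∀ t : Fin s, ∑ t' ∈ Iio t.castSucc, u t' = ∑ t' ∈ Iio t, u t'.castSucc := by
      intro t
      rw [← Fin.map_castSuccEmb_Iio, Finset.sum_map]
      rfl
    have h3 : ∑ t' ∈ Iio (Fin.last s), u t' = ∑ t' : Fin s, u t'.castSucc := by
      rw [Fin.Iio_last_eq_map, Finset.sum_map]
      rfl
    rw [Fin.sum_univ_castSucc, Fin.sum_univ_castSucc (f := u)]
    simp only [h2, h3]
    set W := ∑ t' : Fin s, u t'.castSucc with hW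
    have h4 := hu (Fin.last s)
    have h5 := hG W (W + u (Fin.last s)) (by linarith)
    have h6 := hf W (W + u (Fin.last s)) (by linarith)
    have h7 : 0 ≤ (A - u (Fin.last s)) * (f W - f (W + u (Fin.last s))) :=
      mul_nonneg (by linarith) (by linarith)
    nlinarith

/-- primitive of `min 1 exp` -/
noncomputable def gg (z : ℝ) : ℝ := if 0 ≤ z then z + 1 else Real.exp z

lemma gg_nn (z : ℝ) : 0 ≤ gg z := by
  unfold gg
  split_ifs
  · linarith
  · positivity

lemma gg_step {z z' : ℝ} (h : z' ≤ z) : (z - z') * min 1 (Real.exp z') ≤ gg z - gg z' := by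
  unfold gg
  by_cases h1 : 0 ≤ z'
  · rw [if_pos h1, if_pos (h1.trans h), min_eq_left (Real.one_le_exp h1)]
    linarith
  · push Not at h1
    rw [if_neg (not_le.2 h1)]
    have h2 : Real.exp z' ≤ 1 := Real.exp_le_one_iff.2 h1.le
    rw [min_eq_right h2]
    have h3 := Real.exp_pos z'
    by_cases h4 : 0 ≤ z
    · rw [if_pos h4]
      have h5 : (1 - z') * Real.exp z' ≤ 1 := by
        have h6 : 1 - z' ≤ Real.exp (-z') := by
          have := Real.add_one_le_exp (-z')
          linarith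
        calc (1 - z') * Real.exp z' ≤ Real.exp (-z') * Real.exp z' :=
              mul_le_mul_of_nonneg_right h6 h3.le
          _ = 1 := by rw [← Real.exp_add]; simp
      have h7 : z * Real.exp z' ≤ z * 1 := mul_le_mul_of_nonneg_left h2 h4
      nlinarith
    · rw [if_neg h4]
      have h5 : Real.exp z = Real.exp (z - z') * Real.exp z' := by
        rw [← Real.exp_add]; congr 1; ring
      have h6 := Real.add_one_le_exp (z - z')
      have h7 := mul_le_mul_of_nonneg_right h6 h3.le
      rw [h5]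
      nlinarith

theorem tele2 (s : ℕ) (θ κ A : ℝ) (hθ : 0 ≤ θ) (hκ : 0 < κ) (hA : 0 ≤ A) (u W : Fin s → ℝ)
    (hu : ∀ i, 0 ≤ u i ∧ u i ≤ A) (hW : ∀ t, ∑ t' ∈ Iio t, u t' ≤ W t) :
    ∑ t, u t * min 1 (Real.exp (θ - κ * W t)) ≤ (θ + 1) / κ + A := by
  have h1 := tele (fun w => min 1 (Real.exp (θ - κ * w))) (fun w => gg (θ - κ * w) / κ) A
    (by
      intro w w' h
      apply min_le_min le_rfl
      apply Real.exp_le_exp.2
      have := mul_le_mul_of_nonneg_left h hκ.le
      linarith)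
    (by
      intro w w' h
      have h2 := mul_le_mul_of_nonneg_left h hκ.le
      have h3 := gg_step (z := θ - κ * w) (z' := θ - κ * w') (by linarith)
      show (w' - w) * min 1 (Real.exp (θ - κ * w')) ≤ gg (θ - κ * w) / κ - gg (θ - κ * w') / κ
      rw [← sub_div, le_div_iff₀ hκ]
      have h4 : (w' - w) * min 1 (Real.exp (θ - κ * w')) * κ =
          (θ - κ * w - (θ - κ * w')) * min 1 (Real.exp (θ - κ * w')) := by ring
      rw [h4]
      exact h3)
    s u hu
  have h2 : ∑ t, u t * min 1 (Real.exp (θ - κ * W t)) ≤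
      ∑ t, u t * min 1 (Real.exp (θ - κ * ∑ t' ∈ Iio t, u t')) := by
    apply Finset.sum_le_sum
    intro t _
    apply mul_le_mul_of_nonneg_left _ (hu t).1
    apply min_le_min le_rfl
    apply Real.exp_le_exp.2
    have := mul_le_mul_of_nonneg_left (hW t) hκ.le
    linarith
  have h3 : 0 ≤ gg (θ - κ * ∑ t, u t) / κ := div_nonneg (gg_nn _) hκ.le
  have h4 : 0 ≤ A * min 1 (Real.exp (θ - κ * ∑ t, u t)) := by positivity
  have h5 : gg (θ - κ * 0) / κ = (θ + 1) / κ := by
    rw [mul_zero, sub_zero]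
    unfold gg
    rw [if_pos hθ]
  have h6 : A * min 1 (Real.exp (θ - κ * 0)) ≤ A := by
    have : min 1 (Real.exp (θ - κ * 0)) ≤ 1 := min_le_left _ _
    nlinarith
  simp only at h1
  linarith

end Pool.Agent.TH900.VPC
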