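import Pool.Agent.TH900.VPC.Arith
import Pool.Agent.TH900.VPC.Cov2
import Pool.Agent.TH900.VPC.Tele

/-! The choice of the columns. -/

set_option autoImplicit false

namespace Pool.Agent.TH900.VPC

open Finset
open Pool.Agent.W89.VP
open Pool.Agent.W505.PV.VF (wf wf_mul_vf vf_pos vf_eq)
open Pool.Agent.TH900.VPS

set_option maxHeartbeats 400000

/-- known modulus at step `t` -/
def HH {n s : ℕ} (D : ℕ) (y' : Fin n → ℕ) (x : Fin s → ℕ) (t : Fin s) : ℕ := Vd y' * D * Hp y' x t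

lemma dvd_HH {n s : ℕ} (D : ℕ) (y' : Fin n → ℕ) (x : Fin s → ℕ) {t' t : Fin s} (h : t' < t)
    (j : Fin n) : ds (y' j) (x t') ∣ HH D y' x t := by
  unfold HH
  apply Dvd.dvd.mul_left
  unfold Hp
  exact dvd_trans (Finset.dvd_prod_of_mem (fun j => ds (y' j) (x t')) (Finset.mem_univ j))
    (Finset.dvd_prod_of_mem (fun t' => ∏ j, ds (y' j) (x t'))
      (Finset.mem_filter.2 ⟨Finset.mem_univ t', h⟩))

lemma uniq_new {n s D q : ℕ} {y' : Fin n → ℕ} {x : Fin s → ℕ} {t1 t2 : Fin s} {j1 j2 : Fin n}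
    (h1 : ¬ q ∣ HH D y' x t1) (h1' : q ∣ ds (y' j1) (x t1))
    (h2 : ¬ q ∣ HH D y' x t2) (h2' : q ∣ ds (y' j2) (x t2)) : t1 = t2 ∧ j1 = j2 := by
  have ht : t1 = t2 := by
    rcases lt_trichotomy t1 t2 with h | h | h
    · exact absurd (h1'.trans (dvd_HH D y' x h j1)) h2
    · exact h
    · exact absurd (h2'.trans (dvd_HH D y' x h j2)) h1
  refine ⟨ht, ?_⟩
  subst ht
  by_contra hne
  apply h1
  unfold HH
  rw [mul_assoc]
  apply Dvd.dvd.mul_right
  refine dvd_trans ?_ (ds_dvd_Vd' y' hne)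
  have e1 : (q : ℤ) ∣ (y' j1 : ℤ) - x t1 := Int.natCast_dvd.2 h1'
  have e2 : (q : ℤ) ∣ (y' j2 : ℤ) - x t1 := Int.natCast_dvd.2 h2'
  have e3 := dvd_sub e1 e2
  have h4 : (y' j1 : ℤ) - x t1 - (y' j2 - x t1) = (y' j1 : ℤ) - y' j2 := by ring
  rw [h4] at e3
  exact Int.natCast_dvd.1 e3

/-- the payments up to `t` are at most the known mass -/
lemma paid_le {n s a c : ℕ} (hc : c ≠ 0) (y' : Fin n → ℕ) (x : Fin s → ℕ)
    (hdvd : ∀ i j, ds (y' j) (x i) ∣ c) (t : Fin s) :
    ∑ t' ∈ Iio t, ∑ j, Real.log (vf (HH (DD a s c) y' x t') (ds (y' j) (x t')) : ℝ) ≤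
      ∑ q ∈ c.primeFactors.filter (fun q => q ∣ HH (DD a s c) y' x t ∧ ¬ q ∣ DD a s c),
        (c.factorization q : ℝ) * Real.log q := by
  classical
  set D := DD a s c with hD
  let g : Fin s → Fin n → ℕ → ℝ := fun t' j q =>
    if ¬ q ∣ HH D y' x t' then ((ds (y' j) (x t')).factorization q : ℝ) * Real.log q else 0
  have h1 : ∑ t' ∈ Iio t, ∑ j, Real.log (vf (HH D y' x t') (ds (y' j) (x t')) : ℝ) =
      ∑ q ∈ c.primeFactors, ∑ p ∈ Iio t ×ˢ (univ : Finset (Fin n)), g p.1 p.2 q := by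
    symm
    rw [Finset.sum_comm, Finset.sum_product]
    apply Finset.sum_congr rfl
    intro t' _
    apply Finset.sum_congr rfl
    intro j _
    exact (log_vf_eq _ hc (hdvd t' j)).symm
  rw [h1, Finset.sum_filter]
  apply Finset.sum_le_sum
  intro q hq
  have hq' := Nat.prime_of_mem_primeFactors hq
  have hlog : 0 ≤ Real.log (q : ℝ) := Real.log_natCast_nonneg q
  by_cases hex : ∃ p ∈ Iio t ×ˢ (univ : Finset (Fin n)), g p.1 p.2 q ≠ 0
  · obtain ⟨p, hp, hpg⟩ := hex
    have hp1 : ¬ q ∣ HH D y' x p.1 := by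
      intro h
      apply hpg
      simp only [g]
      rw [if_neg (not_not.2 h)]
    have hp2 : q ∣ ds (y' p.2) (x p.1) := by
      by_contra h
      apply hpg
      simp only [g]
      rw [Nat.factorization_eq_zero_of_not_dvd h]
      simp
    rw [Finset.sum_eq_single_of_mem p hp]
    · have hp3 : p.1 < t := Finset.mem_Iio.1 (Finset.mem_product.1 hp).1
      have hin : q ∣ HH D y' x t ∧ ¬ q ∣ D := by
        refine ⟨hp2.trans (dvd_HH D y' x hp3 p.2), fun h => hp1 ?_⟩
        unfold HH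
        exact (h.mul_left _).mul_right _
      rw [if_pos hin]
      simp only [g]
      rw [if_pos hp1]
      apply mul_le_mul_of_nonneg_right _ hlog
      have h2 : ds (y' p.2) (x p.1) ≠ 0 := fun h => hc (Nat.eq_zero_of_zero_dvd (h ▸ hdvd p.1 p.2))
      exact_mod_cast (Nat.factorization_le_iff_dvd h2 hc).2 (hdvd p.1 p.2) q
    · intro p' hp' hne
      by_contra hcon
      have hp1' : ¬ q ∣ HH D y' x p'.1 := by
        intro h
        apply hcon
        simp only [g]
        rw [if_neg (not_not.2 h)]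
      have hp2' : q ∣ ds (y' p'.2) (x p'.1) := by
        by_contra h
        apply hcon
        simp only [g]
        rw [Nat.factorization_eq_zero_of_not_dvd h]
        simp
      obtain ⟨e1, e2⟩ := uniq_new hp1' hp2' hp1 hp2
      exact hne (Prod.ext e1 e2)
  · push Not at hex
    rw [Finset.sum_eq_zero hex]
    split_ifs
    · positivity
    · exact le_rfl

theorem exists_choice {n s a b N c : ℕ} (hN : 2 ≤ N) (hs : 1 ≤ s) (hn : 1 ≤ n) (ha : 1 ≤ a)
    (hb : 1 ≤ b) (x y : Fin s → ℕ) (y' : Fin n → ℕ) (hx : ∀ i, 1 ≤ x i ∧ x i ≤ N)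
    (hy : ∀ i, 1 ≤ y i ∧ y i ≤ N) (hy' : ∀ j, 1 ≤ y' j ∧ y' j ≤ N) (hxy : ∀ i j, x i ≠ y j)
    (hxy' : ∀ i j, x i ≠ y' j)
    (hc : c ≠ 0) (hrow : ∀ i, ∏ j, ds (y j) (x i) = c) (hdvd : ∀ i j, ds (y' j) (x i) ∣ c) :
    ∃ (j0 : Fin n) (τ : Fin b → Fin s),
      ∑ t ∈ univ.filter (fun t => LC (HH (DD a s c) y' x t) (fun r => y (τ r)) (x t) < N),
        Real.log (vf (HH (DD a s c) y' x t) (ds (y' j0) (x t)) : ℝ) ≤
      (1 + (s : ℝ) / n * (16 / (5 * b) + 1 / a)) * Real.log N := by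
  classical
  have hsr : (0 : ℝ) < s := by exact_mod_cast hs
  have hnr : (0 : ℝ) < n := by exact_mod_cast hn
  have har : (0 : ℝ) < a := by exact_mod_cast ha
  have hbr : (0 : ℝ) < b := by exact_mod_cast hb
  set L := Real.log (N : ℝ) with hL
  have hL0 : 0 < L := Real.log_pos (by exact_mod_cast hN)
  let H : Fin s → ℕ := fun t => HH (DD a s c) y' x t
  let K : Fin s → Finset ℕ := fun t =>
    c.primeFactors.filter (fun q => q ∣ H t ∧ ¬ q ∣ DD a s c)
  let m : Fin s → ℝ := fun t => mass (K t) (fun q => Real.log (q : ℝ)) (fun q => c.factorization q)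
  let pay : Fin s → Fin n → ℝ := fun t j => Real.log (vf (H t) (ds (y' j) (x t)) : ℝ)
  let u : Fin s → ℝ := fun t => ∑ j, pay t j
  let BAD : Fin s → Finset (Fin b → Fin s) := fun t =>
    univ.filter (fun τ => LC (H t) (fun r => y (τ r)) (x t) < N)
  set θ : ℝ := 1 + 5 * b / (8 * a) with hθ
  set κ : ℝ := 5 * b / (8 * (s * L)) with hκ
  have hθ0 : 0 ≤ θ := by positivity
  have hκ0 : 0 < κ := by positivity
  have hds1 : ∀ i j, 1 ≤ ds (y j) (x i) := fun i j => ds_pos' (hxy i j)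
  have hdsN : ∀ i j, ds (y j) (x i) ≤ N := fun i j => ds_le' (hy j) (hx i)
  have hds1' : ∀ i j, 1 ≤ ds (y' j) (x i) := fun i j => ds_pos' (hxy' i j)
  have hdsN' : ∀ i j, ds (y' j) (x i) ≤ N := fun i j => ds_le' (hy' j) (hx i)
  have hKp : ∀ t, ∀ q ∈ K t, q.Prime := fun t q hq =>
    Nat.prime_of_mem_primeFactors (Finset.mem_filter.1 hq).1
  have hbad : ∀ t, ((BAD t).card : ℝ) ≤ (s : ℝ) ^ b * min 1 (Real.exp (θ - κ * m t)) := by
    intro t
    have h1 := cov_card (K t) (fun q => Real.log (q : ℝ)) (fun q _ => Real.log_natCast_nonneg q)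
      s a ha (fun q j => (ds (y j) (x t)).factorization q) (fun q => c.factorization q)
      (by
        intro q _
        rw [← hrow t, Nat.factorization_prod_apply]
        intro j _
        have := hds1 t j
        omega)
      (by
        intro q hq
        have hq' := Finset.mem_filter.1 hq
        exact not_dvd_DD hq'.1 hq'.2.2)
      L hL0
      (by
        intro j
        exact col_mass_le (hds1 t j) (hdsN t j) (K t) (hKp t))
      hs b
    refine le_trans ?_ h1
    have h2 : (BAD t) ⊆ univ.filter (fun τ : Fin b → Fin s => mass (K t) (fun q => Real.log (q : ℝ))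
        (fun q => univ.sup (fun r => (ds (y (τ r)) (x t)).factorization q)) < L) := by
      intro τ hτ
      rw [Finset.mem_filter] at hτ ⊢
      refine ⟨Finset.mem_univ _, ?_⟩
      exact sup_mass_lt (H t) (fun r => y (τ r)) (x t) (fun r => hds1 t _) (K t)
        (fun q hq => ⟨hKp t q hq, (Finset.mem_filter.1 hq).2.1⟩) hτ.2
    exact_mod_cast Finset.card_le_card h2
  have hpay0 : ∀ t j, 0 ≤ pay t j := fun t j => log_nn _
  have hpayL : ∀ t j, pay t j ≤ L := by
    intro t j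
    apply Real.log_le_log
    · have := vf_pos (H t) (ds (y' j) (x t))
      positivity
    · exact_mod_cast (Nat.le_of_dvd (hds1' t j) (vf_dvd _ _ (hds1' t j))).trans (hdsN' t j)
  have hu : ∀ t, 0 ≤ u t ∧ u t ≤ n * L := by
    intro t
    refine ⟨Finset.sum_nonneg (fun j _ => hpay0 t j), ?_⟩
    calc u t ≤ ∑ _j : Fin n, L := Finset.sum_le_sum (fun j _ => hpayL t j)
      _ = n * L := by simp
  have hw : ∀ t, ∑ t' ∈ Iio t, u t' ≤ m t := fun t => paid_le hc y' x hdvd t
  have htele := tele2 s θ κ (n * L) hθ0 hκ0 (by positivity) u m hu hw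
  have hsum : ∑ p : Fin n × (Fin b → Fin s),
      ∑ t ∈ univ.filter (fun t => LC (H t) (fun r => y (p.2 r)) (x t) < N), pay t p.1 =
      ∑ t, ((BAD t).card : ℝ) * u t := by
    have h1 : ∀ p : Fin n × (Fin b → Fin s),
        ∑ t ∈ univ.filter (fun t => LC (H t) (fun r => y (p.2 r)) (x t) < N), pay t p.1 =
        ∑ t, if LC (H t) (fun r => y (p.2 r)) (x t) < N then pay t p.1 else 0 := by
      intro p
      rw [Finset.sum_filter]
    rw [Finset.sum_congr rfl (fun p _ => h1 p), Finset.sum_comm]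
    apply Finset.sum_congr rfl
    intro t _
    rw [Fintype.sum_prod_type]
    have h2 : ∀ j : Fin n, (∑ τ : Fin b → Fin s,
        if LC (H t) (fun r => y (τ r)) (x t) < N then pay t j else 0) = ((BAD t).card : ℝ) * pay t j := by
      intro j
      rw [← Finset.sum_filter, Finset.sum_const, nsmul_eq_mul]
    rw [Finset.sum_congr rfl (fun j _ => h2 j), ← Finset.mul_sum]
  set C0 : ℝ := (1 + (s : ℝ) / n * (16 / (5 * b) + 1 / a)) * L with hC0
  have hexi : ∃ p ∈ (univ : Finset (Fin n × (Fin b → Fin s))),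
      ∑ t ∈ univ.filter (fun t => LC (H t) (fun r => y (p.2 r)) (x t) < N), pay t p.1 ≤ C0 := by
    apply Finset.exists_le_of_sum_le
    · exact ⟨(⟨0, hn⟩, fun _ => ⟨0, hs⟩), Finset.mem_univ _⟩
    · rw [hsum, Finset.sum_const, Finset.card_univ, Fintype.card_prod, Fintype.card_fin,
        Fintype.card_pi_const, Fintype.card_fin, nsmul_eq_mul]
      have h1 : ∑ t, ((BAD t).card : ℝ) * u t ≤
          (s : ℝ) ^ b * ∑ t, u t * min 1 (Real.exp (θ - κ * m t)) := by
        rw [Finset.mul_sum]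
        apply Finset.sum_le_sum
        intro t _
        have := mul_le_mul_of_nonneg_right (hbad t) (hu t).1
        linarith
      refine h1.trans ?_
      have h2 := mul_le_mul_of_nonneg_left htele (show (0 : ℝ) ≤ (s : ℝ) ^ b by positivity)
      refine h2.trans (le_of_eq ?_)
      have h3 : (θ + 1) / κ + n * L = n * C0 := by
        rw [hθ, hκ, hC0]
        field_simp
        ring
      rw [h3]
      push_cast
      ring
  obtain ⟨p, -, hp⟩ := hexi
  exact ⟨p.1, p.2, hp⟩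

end Pool.Agent.TH900.VPC
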